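import Pool.Agent.H140Z.DS.Main

set_option autoImplicit false

namespace Pool.Agent.Results.MP_13ec72_co.AHole

open Pool.Agent.H140Z.DS

/-- There is a simple `2-(7,3,4)` design whose minimal defining sets have exactly the sizes
`7, 8, 9, 10, 13`; so its spectrum is not a set of consecutive integers. -/
theorem result : ∃ B : Finset (Finset (Fin 7)), IsDesign 2 3 4 B ∧
    Spec 2 3 4 B = {7, 8, 9, 10, 13} ∧
    ∃ a m b : ℕ, a ∈ Spec 2 3 4 B ∧ b ∈ Spec 2 3 4 B ∧ a < m ∧ m < b ∧ m ∉ Spec 2 3 4 B :=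
  ⟨des m0, main.1, main.2, 10, 11, 13, by rw [main.2]; simp, by rw [main.2]; simp, by decide,
    by decide, by rw [main.2]; simp⟩

end Pool.Agent.Results.MP_13ec72_co.AHole
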